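import Mathlib
import Pool.Agent.Helper31.Family

open MvPolynomial

namespace Pool.Agent.Results.MP_13c6dd_ag.InfiniteDegreeFour

open Pool.Agent.Helper31

/-- The stratum `S_(18)` (genus `10`, one zero of order `18`) contains infinitely many arithmetic
points of degree `4`: there are smooth plane sextics `C 0, C 1, …` and holomorphic 1-forms
`ω_(G 0), ω_(G 1), …` on them, each form with exactly one zero, such that all the pairs
`(C n, [ω_(G n)])` are arithmetic points of degree `4` and no two of them are isomorphic.

(A smooth plane sextic is connected of genus `10`, so that a holomorphic 1-form on it has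
`2 * 10 - 2 = 18` zeros with multiplicities; hence a form with exactly one zero has a single zero
of order `18`. The curves used in the proof are `Y⁶ = X Z (X⁴ + p X² Z² + Z⁴)` with the form
`ω_(Z³)`, for infinitely many real algebraic values of `p`.) -/
theorem result : ∃ (C : ℕ → PlaneCurve 3) (G : ℕ → MvPolynomial (Fin 3) ℂ),
    (∀ n, (G n).IsHomogeneous 3 ∧ (∃ P, (C n).zeros (G n) = {P}) ∧
      (C n).IsArithmetic (G n) ∧ (C n).degree (G n) = 4) ∧
    Pairwise fun m n => ¬ Isomorphic (C m) (G m) (C n) (G n) := by
  refine ⟨fun n => (dn n).curve, fun _ => X 2 ^ 3, fun n => ⟨?_, family.1 n⟩, family.2⟩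
  simpa using (isHomogeneous_X ℂ (2 : Fin 3)).pow 3

end Pool.Agent.Results.MP_13c6dd_ag.InfiniteDegreeFour
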